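import Pool.Agent.W89.VP.Defs

set_option autoImplicit false

/-! PV-CNT: tuples with `φ` dividing a product of differences. -/

namespace Pool.Agent.W346.PV.Cnt

open Finset Pool.Agent.W89.VP

lemma exists_fac {ι : Type} [DecidableEq ι] (B : Finset ι) (u : ι → ℕ) : ∀ φ : ℕ,
    φ ∣ ∏ i ∈ B, u i → ∃ g : ι → ℕ, (∀ i ∈ B, g i ∣ u i) ∧ (∀ i, i ∉ B → g i = 1) ∧
      ∏ i ∈ B, g i = φ := by
  induction B using Finset.induction_on with
  | empty =>
    intro φ h
    rw [prod_empty, Nat.dvd_one] at h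
    exact ⟨fun _ => 1, fun i hi => absurd hi (notMem_empty i), fun _ _ => rfl, by simp [h]⟩
  | insert b B hb ih =>
    intro φ h
    rw [prod_insert hb] at h
    obtain ⟨φ1, φ2, h1, h2, h3⟩ := Nat.dvd_mul.1 h
    obtain ⟨g, hg1, hg2, hg3⟩ := ih φ2 h2
    refine ⟨Function.update g b φ1, ?_, ?_, ?_⟩
    · intro i hi
      by_cases hib : i = b
      · subst hib
        rw [Function.update_self]
        exact h1
      · rw [Function.update_of_ne hib]
        exact hg1 i ((mem_insert.1 hi).resolve_left hib)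
    · intro i hi
      rw [mem_insert, not_or] at hi
      rw [Function.update_of_ne hi.1]
      exact hg2 i hi.2
    · rw [prod_insert hb, Function.update_self]
      have : ∏ i ∈ B, Function.update g b φ1 i = ∏ i ∈ B, g i := by
        refine prod_congr rfl fun i hi => ?_
        rw [Function.update_of_ne]
        rintro rfl
        exact hb hi
      rw [this, hg3, h3]

lemma cnt_one (N y g : ℕ) (hg : 1 ≤ g) (hy : 1 ≤ y ∧ y ≤ N) :
    ((((Icc 1 N).filter fun u => u ≠ y ∧ g ∣ ds y u).card : ℕ) : ℝ) ≤ 2 * N / g := by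
  have hg0 : (0 : ℝ) < g := by exact_mod_cast hg
  have h1 : ((Icc 1 N).filter fun u => u ≠ y ∧ g ∣ ds y u) ⊆
      ((Icc 1 (N / g)).image fun t => y + g * t) ∪ ((Icc 1 (N / g)).image fun t => y - g * t) := by
    intro u hu
    rw [mem_filter, mem_Icc] at hu
    obtain ⟨⟨h1, h2⟩, h3, t, ht⟩ := hu
    have ht0 : 1 ≤ t := by
      rcases Nat.eq_zero_or_pos t with h | h
      · subst h
        rw [mul_zero] at ht
        unfold ds at ht
        omega
      · exact h
    have hb : g * t ≤ N := by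
      rw [← ht]
      unfold ds
      omega
    have htN : t ≤ N / g := by
      rw [Nat.le_div_iff_mul_le hg]
      linarith [mul_comm g t]
    rw [mem_union, mem_image, mem_image]
    rcases le_total y u with h | h
    · left
      refine ⟨t, mem_Icc.2 ⟨ht0, htN⟩, ?_⟩
      rw [← ht]
      unfold ds
      omega
    · right
      refine ⟨t, mem_Icc.2 ⟨ht0, htN⟩, ?_⟩
      rw [← ht]
      unfold ds
      omega
  have h2 := (card_le_card h1).trans (card_union_le _ _)
  have h3 : ((Icc 1 (N / g)).image fun t => y + g * t).card ≤ N / g := by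
    refine card_image_le.trans ?_
    simp
  have h4 : ((Icc 1 (N / g)).image fun t => y - g * t).card ≤ N / g := by
    refine card_image_le.trans ?_
    simp
  have h5 : (((Icc 1 N).filter fun u => u ≠ y ∧ g ∣ ds y u).card : ℝ) ≤ 2 * ((N / g : ℕ) : ℝ) := by
    have : ((Icc 1 N).filter fun u => u ≠ y ∧ g ∣ ds y u).card ≤ 2 * (N / g) := by omega
    exact_mod_cast this
  refine h5.trans ?_
  have h6 : ((N / g : ℕ) : ℝ) ≤ (N : ℝ) / g := Nat.cast_div_le
  rw [mul_div_assoc]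
  linarith

open scoped Classical in
theorem main (hD : DIVStm) : CNTStm := by
  intro s ε hε
  set ε' : ℝ := ε / ((s : ℝ) ^ 2 + 1) with hε'
  have hs1 : (0 : ℝ) < (s : ℝ) ^ 2 + 1 := by positivity
  have hε'0 : 0 < ε' := by positivity
  obtain ⟨C', hC', hdiv⟩ := hD ε' hε'0
  refine ⟨C' ^ s * 2 ^ s, by positivity, fun N hN A z y φ hy1 hyN hφ1 hφN => ?_⟩
  have hN0 : (0 : ℝ) < N := by exact_mod_cast hN
  have hN1 : (1 : ℝ) ≤ N := by exact_mod_cast hN
  have hφ0 : (0 : ℝ) < φ := by exact_mod_cast hφ1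
  set T := (Fintype.piFinset fun _ : Fin s => Finset.Icc 1 N).filter (fun x : Fin s → ℕ =>
      (∀ i ∈ A, x i = z i) ∧ (∀ i ∈ Aᶜ, x i ≠ y) ∧ φ ∣ ∏ i ∈ Aᶜ, ds y (x i)) with hT
  set G := (Fintype.piFinset fun _ : Fin s => φ.divisors).filter
    (fun g : Fin s → ℕ => ∏ i ∈ Aᶜ, g i = φ) with hG
  set Tg : (Fin s → ℕ) → Finset (Fin s → ℕ) := fun g => Fintype.piFinset fun i =>
    if i ∈ A then {z i} else (Icc 1 N).filter fun u => u ≠ y ∧ g i ∣ ds y u with hTg
  have hsub : T ⊆ G.biUnion Tg := by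
    intro x hx
    rw [hT, mem_filter, Fintype.mem_piFinset] at hx
    obtain ⟨hx1, hx2, hx3, hx4⟩ := hx
    obtain ⟨g, hg1, hg2, hg3⟩ := exists_fac Aᶜ (fun i => ds y (x i)) φ hx4
    rw [mem_biUnion]
    refine ⟨g, ?_, ?_⟩
    · rw [hG, mem_filter, Fintype.mem_piFinset]
      refine ⟨fun i => ?_, hg3⟩
      rw [Nat.mem_divisors]
      refine ⟨?_, by omega⟩
      by_cases hi : i ∈ Aᶜ
      · rw [← hg3]
        exact dvd_prod_of_mem g hi
      · rw [hg2 i hi]
        exact one_dvd _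
    · rw [hTg, Fintype.mem_piFinset]
      intro i
      by_cases hi : i ∈ A
      · rw [if_pos hi, mem_singleton]
        exact hx2 i hi
      · rw [if_neg hi, mem_filter]
        have hi' : i ∈ Aᶜ := mem_compl.2 hi
        exact ⟨hx1 i, hx3 i hi', hg1 i hi'⟩
  have hcard : ∀ g ∈ G, ((Tg g).card : ℝ) ≤ 2 ^ s * (N : ℝ) ^ (Aᶜ.card) / φ := by
    intro g hg
    rw [hG, mem_filter, Fintype.mem_piFinset] at hg
    obtain ⟨hg1, hg2⟩ := hg
    have hgpos : ∀ i, 1 ≤ g i := fun i => Nat.pos_of_mem_divisors (hg1 i)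
    have e1 : ((Tg g).card : ℝ) = ∏ i ∈ Aᶜ,
        (((Icc 1 N).filter fun u => u ≠ y ∧ g i ∣ ds y u).card : ℝ) := by
      rw [hTg, Fintype.card_piFinset]
      push_cast
      rw [← prod_mul_prod_compl A]
      have h1 : ∏ i ∈ A, (((if i ∈ A then {z i} else
          (Icc 1 N).filter fun u => u ≠ y ∧ g i ∣ ds y u : Finset ℕ).card : ℕ) : ℝ) = 1 := by
        refine prod_eq_one fun i hi => ?_
        rw [if_pos hi, card_singleton, Nat.cast_one]
      rw [h1, one_mul]
      refine prod_congr rfl fun i hi => ?_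
      rw [if_neg (mem_compl.1 hi)]
    rw [e1]
    have e2 : ∏ i ∈ Aᶜ, (((Icc 1 N).filter fun u => u ≠ y ∧ g i ∣ ds y u).card : ℝ) ≤
        ∏ i ∈ Aᶜ, (2 * (N : ℝ) / (g i : ℝ)) :=
      prod_le_prod (fun i _ => Nat.cast_nonneg _) fun i _ => cnt_one N y (g i) (hgpos i) ⟨hy1, hyN⟩
    refine e2.trans ?_
    rw [prod_div_distrib, prod_const, ← Nat.cast_prod, hg2, mul_pow]
    have e3 : (2 : ℝ) ^ (Aᶜ.card) ≤ 2 ^ s := by
      refine pow_le_pow_right₀ (by norm_num) ?_
      refine (card_le_univ _).trans ?_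
      rw [Fintype.card_fin]
    gcongr
  have hGc : (G.card : ℝ) ≤ C' ^ s * (N : ℝ) ^ ε := by
    have h1 : (G.card : ℝ) ≤ ((φ.divisors.card : ℕ) : ℝ) ^ s := by
      have : G.card ≤ φ.divisors.card ^ s := by
        rw [hG]
        refine (card_filter_le _ _).trans ?_
        rw [Fintype.card_piFinset_const]
      exact_mod_cast this
    refine h1.trans ?_
    have h2 : ((φ.divisors.card : ℕ) : ℝ) ≤ C' * (N : ℝ) ^ ((s : ℝ) * ε') := by
      refine (hdiv φ hφ1).trans ?_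
      refine mul_le_mul_of_nonneg_left ?_ hC'.le
      rw [Real.rpow_mul hN0.le, Real.rpow_natCast]
      refine Real.rpow_le_rpow hφ0.le ?_ hε'0.le
      exact_mod_cast hφN
    calc ((φ.divisors.card : ℕ) : ℝ) ^ s ≤ (C' * (N : ℝ) ^ ((s : ℝ) * ε')) ^ s :=
          pow_le_pow_left₀ (Nat.cast_nonneg _) h2 s
      _ = C' ^ s * (N : ℝ) ^ ((s : ℝ) * ε' * s) := by
          rw [mul_pow, ← Real.rpow_mul_natCast hN0.le]
      _ ≤ C' ^ s * (N : ℝ) ^ ε := by
          refine mul_le_mul_of_nonneg_left ?_ (by positivity)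
          refine Real.rpow_le_rpow_of_exponent_le hN1 ?_
          rw [hε']
          have : (s : ℝ) * (ε / ((s : ℝ) ^ 2 + 1)) * s = ε * ((s : ℝ) ^ 2 / ((s : ℝ) ^ 2 + 1)) := by
            field_simp
          rw [this]
          have h3 : (s : ℝ) ^ 2 / ((s : ℝ) ^ 2 + 1) ≤ 1 := by
            rw [div_le_one hs1]
            linarith
          nlinarith
  have hfin : (T.card : ℝ) ≤ (G.card : ℝ) * (2 ^ s * (N : ℝ) ^ (Aᶜ.card) / φ) := by
    have h1 : (T.card : ℝ) ≤ ∑ g ∈ G, ((Tg g).card : ℝ) := by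
      exact_mod_cast (card_le_card hsub).trans card_biUnion_le
    refine h1.trans ?_
    rw [← nsmul_eq_mul]
    exact sum_le_card_nsmul _ _ _ hcard
  refine hfin.trans ?_
  calc (G.card : ℝ) * (2 ^ s * (N : ℝ) ^ (Aᶜ.card) / φ)
      ≤ (C' ^ s * (N : ℝ) ^ ε) * (2 ^ s * (N : ℝ) ^ (Aᶜ.card) / φ) := by
        refine mul_le_mul_of_nonneg_right hGc (by positivity)
    _ = C' ^ s * 2 ^ s * (N : ℝ) ^ ε * (N : ℝ) ^ (Aᶜ.card) / φ := by ring

end Pool.Agent.W346.PV.Cnt
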