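import Pool.Agent.W89.VP.Defs

set_option autoImplicit false

/-! PV-DIAG: number of diagonal pairs. -/

namespace Pool.Agent.W346.PV.Diag

open Finset Pool.Agent.W89.VP

lemma desc_lower (s N : ℕ) (hN : 1 ≤ N) :
    (N : ℝ) ^ s - (s : ℝ) ^ 2 * (N : ℝ) ^ (s - 1) ≤ (N.descFactorial s : ℝ) := by
  have hN0 : (0 : ℝ) < N := by exact_mod_cast hN
  rcases Nat.eq_zero_or_pos s with h0 | hs
  · subst h0
    simp
  by_cases h : s ≤ N
  · have h1 : ((N + 1 - s : ℕ) : ℝ) ^ s ≤ (N.descFactorial s : ℝ) := by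
      exact_mod_cast Nat.pow_sub_le_descFactorial N s
    refine le_trans ?_ h1
    have h2 : ((N + 1 - s : ℕ) : ℝ) = (N : ℝ) + 1 - s := by
      rw [Nat.cast_sub (by omega)]
      push_cast
      ring
    rw [h2]
    have hsN : (s : ℝ) ≤ N := by exact_mod_cast h
    have h3 : ((N : ℝ) - s) ^ s ≤ ((N : ℝ) + 1 - s) ^ s := by
      refine pow_le_pow_left₀ (by linarith) (by linarith) _
    refine le_trans ?_ h3
    have h4 : (1 : ℝ) + s * (-(s / N)) ≤ (1 + -(s / N)) ^ s := by
      refine one_add_mul_le_pow ?_ s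
      have : (s : ℝ) / N ≤ 1 := by rw [div_le_one hN0]; exact hsN
      linarith
    have h5 : ((N : ℝ) - s) ^ s = (N : ℝ) ^ s * (1 + -(s / N)) ^ s := by
      rw [← mul_pow]
      congr 1
      field_simp
      ring
    have h6 : (N : ℝ) ^ s = (N : ℝ) ^ (s - 1) * N := by
      rw [← pow_succ]
      congr 1
      omega
    rw [h5]
    have h7 : (N : ℝ) ^ s - (s : ℝ) ^ 2 * (N : ℝ) ^ (s - 1) = (N : ℝ) ^ s * (1 + s * (-(s / N))) := by
      rw [h6]
      field_simp
      ring
    rw [h7]
    exact mul_le_mul_of_nonneg_left h4 (by positivity)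
  · have h6 : (N : ℝ) ^ s = (N : ℝ) ^ (s - 1) * N := by
      rw [← pow_succ]
      congr 1
      omega
    have h7 : (N : ℝ) ≤ (s : ℝ) ^ 2 := by
      have : N ≤ s ^ 2 := by nlinarith
      exact_mod_cast this
    have h8 : (N : ℝ) ^ s - (s : ℝ) ^ 2 * (N : ℝ) ^ (s - 1) ≤ 0 := by
      rw [h6]
      have : (0 : ℝ) < (N : ℝ) ^ (s - 1) := by positivity
      nlinarith
    exact h8.trans (Nat.cast_nonneg _)

open scoped Classical in
theorem main : DIAGStm := by
  intro s hs
  refine ⟨(s.factorial : ℝ) * (s : ℝ) ^ 2, ?_, fun N hN => ?_⟩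
  · have : (0 : ℝ) < s := by exact_mod_cast hs
    have h2 : (0 : ℝ) < s.factorial := by exact_mod_cast s.factorial_pos
    positivity
  set P : Finset (Fin s → ℕ) := Fintype.piFinset fun _ : Fin s => Finset.Icc 1 N with hP
  have hPc : P.card = N ^ s := by
    rw [hP, Fintype.card_piFinset_const]
    simp
  set D := (P ×ˢ P).filter
    (fun p : (Fin s → ℕ) × (Fin s → ℕ) => ∃ σ : Equiv.Perm (Fin s), p.2 = p.1 ∘ σ) with hD
  -- upper bound
  have hup : D.card ≤ s.factorial * N ^ s := by
    have h1 : D ⊆ ((univ : Finset (Equiv.Perm (Fin s))) ×ˢ P).image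
        (fun q => (q.2, q.2 ∘ q.1)) := by
      intro p hp
      rw [hD, mem_filter, mem_product] at hp
      obtain ⟨⟨h2, _⟩, σ, h3⟩ := hp
      rw [mem_image]
      exact ⟨(σ, p.1), mem_product.2 ⟨mem_univ _, h2⟩, Prod.ext rfl h3.symm⟩
    refine (card_le_card h1).trans (card_image_le.trans ?_)
    rw [card_product, card_univ, Fintype.card_perm, Fintype.card_fin, hPc]
  -- lower bound
  have hlow : s.factorial * N.descFactorial s ≤ D.card := by
    set g : Equiv.Perm (Fin s) × (Fin s ↪ Fin N) → (Fin s → ℕ) × (Fin s → ℕ) :=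
      fun q => (fun i => (q.2 i : ℕ) + 1, fun i => (q.2 (q.1 i) : ℕ) + 1) with hg
    have hginj : Function.Injective g := by
      rintro ⟨σ, e⟩ ⟨σ', e'⟩ h
      have h1 : (fun i => (e i : ℕ) + 1) = fun i => (e' i : ℕ) + 1 := congrArg Prod.fst h
      have h2 : (fun i => (e (σ i) : ℕ) + 1) = fun i => (e' (σ' i) : ℕ) + 1 := congrArg Prod.snd h
      have h3 : e = e' := by
        ext i
        have := congrFun h1 i
        omega
      subst h3
      have h4 : σ = σ' := by
        ext i
        have := congrFun h2 i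
        have h5 : e (σ i) = e (σ' i) := Fin.ext (by omega)
        exact congrArg Fin.val (e.injective h5)
      rw [h4]
    have h1 : (univ.image g) ⊆ D := by
      intro p hp
      rw [mem_image] at hp
      obtain ⟨⟨σ, e⟩, _, rfl⟩ := hp
      rw [hD, mem_filter, mem_product, hP, Fintype.mem_piFinset, Fintype.mem_piFinset]
      refine ⟨⟨fun i => ?_, fun i => ?_⟩, σ, rfl⟩
      · have := (e i).isLt
        show (e i : ℕ) + 1 ∈ Icc 1 N
        rw [mem_Icc]
        omega
      · have := (e (σ i)).isLt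
        show (e (σ i) : ℕ) + 1 ∈ Icc 1 N
        rw [mem_Icc]
        omega
    have h2 := card_le_card h1
    rw [card_image_of_injective _ hginj, card_univ, Fintype.card_prod, Fintype.card_perm,
      Fintype.card_embedding_eq, Fintype.card_fin, Fintype.card_fin] at h2
    exact h2
  have hup' : (D.card : ℝ) ≤ (s.factorial : ℝ) * (N : ℝ) ^ s := by exact_mod_cast hup
  have hlow' : (s.factorial : ℝ) * (N.descFactorial s : ℝ) ≤ (D.card : ℝ) := by exact_mod_cast hlow
  have hd := desc_lower s N hN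
  have hf : (0 : ℝ) ≤ s.factorial := Nat.cast_nonneg _
  have hn : (0 : ℝ) ≤ (N : ℝ) ^ (s - 1) := by positivity
  rw [abs_le]
  constructor
  · have := mul_le_mul_of_nonneg_left hd hf
    nlinarith
  · have : 0 ≤ (s.factorial : ℝ) * (s : ℝ) ^ 2 * (N : ℝ) ^ (s - 1) := by positivity
    linarith

end Pool.Agent.W346.PV.Diag
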