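import Pool.Agent.W89.VP.Defs

set_option autoImplicit false

/-! PV-FAC-AVG: factorisation in Z[X] and averages over subsets. -/

namespace Pool.Agent.W346.PV.FacAvg

open Finset Polynomial Pool.Agent.W89.VP

/-- factorisation -/
theorem mainFAC : FACStm := by
  intro R
  refine WfDvdMonoid.induction_on_irreducible R ?_ ?_ ?_
  · intro h
    exact absurd rfl h
  · intro u hu _
    obtain ⟨r, hr, hru⟩ := Polynomial.isUnit_iff.1 hu
    refine ⟨r, 0, Fin.elim0, hr.ne_zero, fun l => l.elim0, ?_, ?_⟩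
    · simp [hru]
    · rw [← hru]
      simp
  · intro a i ha hi ih _
    obtain ⟨c, w, π, hc, hπ, haeq, hdeg⟩ := ih ha
    have hi0 : i ≠ 0 := hi.ne_zero
    by_cases h0 : i.natDegree = 0
    · obtain ⟨r, hr⟩ : ∃ r, i = C r := ⟨i.coeff 0, eq_C_of_natDegree_eq_zero h0⟩
      have hr0 : r ≠ 0 := by
        rintro rfl
        rw [C_0] at hr
        exact hi0 hr
      refine ⟨r * c, w, π, mul_ne_zero hr0 hc, hπ, ?_, ?_⟩
      · rw [haeq, hr, C_mul, mul_assoc]
      · rw [hdeg, natDegree_mul hi0 ha, h0, zero_add]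
    · refine ⟨c, w + 1, Fin.cons i π, hc, ?_, ?_, ?_⟩
      · intro l
        refine Fin.cases ?_ (fun l => ?_) l
        · exact ⟨hi, Nat.one_le_iff_ne_zero.2 h0⟩
        · exact hπ l
      · rw [Fin.prod_univ_succ]
        simp only [Fin.cons_zero, Fin.cons_succ]
        rw [haeq]
        ring
      · rw [Fin.sum_univ_succ]
        simp only [Fin.cons_zero, Fin.cons_succ]
        rw [hdeg, natDegree_mul hi0 ha]

variable {s : ℕ}

lemma cnt1 (i : Fin s) : ∑ A : Finset (Fin s), (if i ∈ Aᶜ then (1 : ℝ) else 0) = 2 ^ s / 2 := by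
  have hs : 0 < s := i.pos
  have h1 : (univ.filter fun A : Finset (Fin s) => i ∈ Aᶜ) = powerset ({i}ᶜ : Finset (Fin s)) := by
    ext A
    rw [mem_filter, mem_powerset, mem_compl]
    constructor
    · rintro ⟨_, h⟩ j hj
      rw [mem_compl, mem_singleton]
      rintro rfl
      exact h hj
    · intro h
      refine ⟨mem_univ _, fun hi => ?_⟩
      have := h hi
      rw [mem_compl, mem_singleton] at this
      exact this rfl
  rw [← sum_filter, h1, sum_const, card_powerset, card_compl, card_singleton, Fintype.card_fin,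
    nsmul_eq_mul, mul_one]
  obtain ⟨t, rfl⟩ : ∃ t, s = t + 1 := ⟨s - 1, by omega⟩
  rw [Nat.add_sub_cancel]
  push_cast
  rw [pow_succ]
  ring

lemma cnt2 (i j : Fin s) (hij : i ≠ j) :
    ∑ A : Finset (Fin s), (if i ∈ Aᶜ ∧ j ∈ Aᶜ then (1 : ℝ) else 0) = 2 ^ s / 4 := by
  have hs : 2 ≤ s := by
    have h1 := i.isLt
    have h2 := j.isLt
    have h3 : (i : ℕ) ≠ j := fun h => hij (Fin.ext h)
    omega
  have h1 : (univ.filter fun A : Finset (Fin s) => i ∈ Aᶜ ∧ j ∈ Aᶜ) =
      powerset ({i, j}ᶜ : Finset (Fin s)) := by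
    ext A
    rw [mem_filter, mem_powerset, mem_compl, mem_compl]
    constructor
    · rintro ⟨_, h, h'⟩ l hl
      rw [mem_compl, mem_insert, mem_singleton]
      rintro (rfl | rfl)
      · exact h hl
      · exact h' hl
    · intro h
      refine ⟨mem_univ _, fun hi => ?_, fun hj => ?_⟩
      · have := h hi
        rw [mem_compl, mem_insert] at this
        exact this (Or.inl rfl)
      · have := h hj
        rw [mem_compl, mem_insert, mem_singleton] at this
        exact this (Or.inr rfl)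
  rw [← sum_filter, h1, sum_const, card_powerset, card_compl, card_pair hij, Fintype.card_fin,
    nsmul_eq_mul, mul_one]
  obtain ⟨t, rfl⟩ : ∃ t, s = t + 2 := ⟨s - 2, by omega⟩
  rw [Nat.add_sub_cancel]
  push_cast
  rw [pow_add]
  ring

lemma part2 (w : Fin s → ℝ) :
    ∑ A : Finset (Fin s), ∑ i ∈ Aᶜ, w i = (2 : ℝ) ^ s / 2 * ∑ i, w i := by
  have h1 : ∀ A : Finset (Fin s), ∑ i ∈ Aᶜ, w i = ∑ i, (if i ∈ Aᶜ then (1 : ℝ) else 0) * w i := by
    intro A
    simp only [ite_mul, one_mul, zero_mul]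
    rw [← sum_filter, filter_mem_eq_inter, univ_inter]
  simp only [h1]
  rw [sum_comm, mul_sum]
  refine sum_congr rfl fun i _ => ?_
  rw [← sum_mul, cnt1]

lemma part3 (γ : Fin s → Fin s → ℝ) (hγ : ∀ i, γ i i = 0) :
    ∑ A : Finset (Fin s), ∑ i ∈ Aᶜ, ∑ i' ∈ Aᶜ, γ i i' = (2 : ℝ) ^ s / 4 * ∑ i, ∑ i', γ i i' := by
  have h1 : ∀ A : Finset (Fin s), ∑ i ∈ Aᶜ, ∑ i' ∈ Aᶜ, γ i i' =
      ∑ i, ∑ i', (if i ∈ Aᶜ ∧ i' ∈ Aᶜ then (1 : ℝ) else 0) * γ i i' := by
    intro A
    have h2 : ∀ g : Fin s → ℝ, ∑ i ∈ Aᶜ, g i = ∑ i, (if i ∈ Aᶜ then g i else 0) := by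
      intro g
      rw [← sum_filter, filter_mem_eq_inter, univ_inter]
    rw [h2]
    refine sum_congr rfl fun i _ => ?_
    by_cases hi : i ∈ Aᶜ
    · rw [if_pos hi, h2]
      refine sum_congr rfl fun j _ => ?_
      by_cases hj : j ∈ Aᶜ
      · rw [if_pos hj, if_pos ⟨hi, hj⟩, one_mul]
      · rw [if_neg hj, if_neg (fun h => hj h.2), zero_mul]
    · rw [if_neg hi]
      symm
      refine sum_eq_zero fun j _ => ?_
      rw [if_neg (fun h => hi h.1), zero_mul]
  simp only [h1]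
  rw [sum_comm, mul_sum]
  refine sum_congr rfl fun i _ => ?_
  rw [sum_comm, mul_sum]
  refine sum_congr rfl fun j _ => ?_
  rw [← sum_mul]
  by_cases hij : i = j
  · subst hij
    rw [hγ, mul_zero, mul_zero]
  · rw [cnt2 i j hij]

lemma second (w : Fin s → ℝ) : ∑ A : Finset (Fin s), (∑ i ∈ Aᶜ, w i - (∑ i, w i) / 2) ^ 2 =
    (2 : ℝ) ^ s / 4 * ∑ i, w i ^ 2 := by
  set H := ∑ i, w i with hH
  have h1 : ∀ A : Finset (Fin s), (∑ i ∈ Aᶜ, w i) ^ 2 =
      ∑ i ∈ Aᶜ, ∑ i' ∈ Aᶜ, (if i = i' then 0 else w i * w i') + ∑ i ∈ Aᶜ, w i ^ 2 := by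
    intro A
    rw [sq, sum_mul_sum, ← sum_add_distrib]
    refine sum_congr rfl fun i hi => ?_
    have h2 : ∑ i' ∈ Aᶜ, w i * w i' = ∑ i' ∈ Aᶜ, ((if i = i' then 0 else w i * w i') +
        (if i = i' then w i * w i' else 0)) := by
      refine sum_congr rfl fun j _ => ?_
      split_ifs <;> ring
    rw [h2, sum_add_distrib, sum_ite_eq, if_pos hi, sq]
  have h3 : ∑ i, ∑ i', (if i = i' then 0 else w i * w i') = H ^ 2 - ∑ i, w i ^ 2 := by
    rw [eq_sub_iff_add_eq, hH, sq, sum_mul_sum, ← sum_add_distrib]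
    refine sum_congr rfl fun i _ => ?_
    have h2 : ∑ i', w i * w i' = ∑ i', ((if i = i' then 0 else w i * w i') +
        (if i = i' then w i * w i' else 0)) := by
      refine sum_congr rfl fun j _ => ?_
      split_ifs <;> ring
    rw [h2, sum_add_distrib, sum_ite_eq, if_pos (mem_univ _), sq]
  have h4 : ∀ A : Finset (Fin s), (∑ i ∈ Aᶜ, w i - H / 2) ^ 2 =
      (∑ i ∈ Aᶜ, ∑ i' ∈ Aᶜ, (if i = i' then 0 else w i * w i') + ∑ i ∈ Aᶜ, w i ^ 2) -
        H * (∑ i ∈ Aᶜ, w i) + H ^ 2 / 4 := by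
    intro A
    rw [← h1]
    ring
  simp only [h4]
  rw [sum_add_distrib, sum_sub_distrib, sum_add_distrib, ← mul_sum, part2, part2,
    part3 (fun i i' => if i = i' then 0 else w i * w i') (fun i => by simp), h3, ← hH, sum_const,
    card_univ, Fintype.card_finset, Fintype.card_fin, nsmul_eq_mul]
  push_cast
  ring

theorem mainAVG : AVGStm := by
  refine ⟨fun s w hw hH8 => ?_, fun s w => part2 w, fun s γ hγ => part3 γ hγ⟩
  set H := ∑ i, w i with hH
  have hcompl : ∀ A : Finset (Fin s), ∑ i ∈ A, w i = H - ∑ i ∈ Aᶜ, w i := by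
    intro A
    rw [hH, ← sum_add_sum_compl A w]
    ring
  set f : Finset (Fin s) → ℝ := fun A => if H / 4 ≤ ∑ i ∈ A, w i then ∑ i ∈ Aᶜ, w i else 0 with hf
  have hnn : ∀ A : Finset (Fin s), 0 ≤ ∑ i ∈ A, w i := fun A => sum_nonneg fun i _ => (hw i).1
  have hpt : ∀ A : Finset (Fin s),
      H - 16 / H * (∑ i ∈ Aᶜ, w i - H / 2) ^ 2 ≤ f A + f Aᶜ := by
    intro A
    have hf0 : ∀ B, 0 ≤ f B := by
      intro B
      simp only [hf]
      split_ifs
      · exact hnn _
      · exact le_rfl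
    set v := ∑ i ∈ Aᶜ, w i with hv
    have hA : ∑ i ∈ A, w i = H - v := hcompl A
    have hH0 : 0 < H := by linarith
    by_cases h : H / 4 ≤ v ∧ v ≤ 3 * H / 4
    · have e1 : f A = v := by
        simp only [hf]
        rw [if_pos]
        rw [hA]
        linarith [h.2]
      have e2 : f Aᶜ = H - v := by
        simp only [hf]
        rw [if_pos h.1, compl_compl, hA]
      rw [e1, e2]
      have : 0 ≤ 16 / H * (v - H / 2) ^ 2 := by positivity
      linarith
    · have h1 : H ^ 2 / 16 ≤ (v - H / 2) ^ 2 := by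
        rw [not_and_or] at h
        rcases h with h | h
        · push Not at h
          nlinarith
        · push Not at h
          nlinarith
      have h2 : H ≤ 16 / H * (v - H / 2) ^ 2 := by
        rw [div_mul_eq_mul_div, le_div_iff₀ hH0]
        nlinarith
      have := hf0 A
      have := hf0 Aᶜ
      linarith
  have hsum : ∑ A : Finset (Fin s), (H - 16 / H * (∑ i ∈ Aᶜ, w i - H / 2) ^ 2) ≤
      2 * ∑ A : Finset (Fin s), f A := by
    refine (sum_le_sum fun A _ => hpt A).trans ?_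
    rw [sum_add_distrib]
    have h1 : ∑ A : Finset (Fin s), f Aᶜ = ∑ A : Finset (Fin s), f A := by
      refine sum_nbij' (fun A => Aᶜ) (fun A => Aᶜ) ?_ ?_ ?_ ?_ ?_ <;> simp
    rw [h1]
    linarith
  rw [sum_sub_distrib, ← mul_sum, second, sum_const, card_univ, Fintype.card_finset,
    Fintype.card_fin, nsmul_eq_mul] at hsum
  push_cast at hsum
  have hw2 : ∑ i, w i ^ 2 ≤ H := by
    rw [hH]
    refine sum_le_sum fun i _ => ?_
    have := hw i
    nlinarith [this.1, this.2]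
  have hH0 : 0 < H := by linarith
  have h2s : (0 : ℝ) < 2 ^ s := by positivity
  have h5 : 16 / H * ((2 : ℝ) ^ s / 4 * ∑ i, w i ^ 2) ≤ 2 ^ s * 4 := by
    rw [div_mul_eq_mul_div, div_le_iff₀ hH0]
    nlinarith
  show (2 : ℝ) ^ s * H / 4 ≤ ∑ A : Finset (Fin s), f A
  nlinarith

end Pool.Agent.W346.PV.FacAvg
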