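import Pool.Agent.W89.VP.Defs

set_option autoImplicit false

/-! PV-NEWT: equal power sums give a difference of low degree. -/

namespace Pool.Agent.W346.PV.Newt

open Finset Polynomial Pool.Agent.W89.VP

lemma esymm_eq (s k : ℕ) (x y : Fin s → ℤ)
    (h : ∀ j, 1 ≤ j → j ≤ k → ∑ i, x i ^ j = ∑ i, y i ^ j) (m : ℕ) (hm : m ≤ k) :
    MvPolynomial.aeval x (MvPolynomial.esymm (Fin s) ℤ m) =
      MvPolynomial.aeval y (MvPolynomial.esymm (Fin s) ℤ m) := by
  induction m using Nat.strong_induction_on with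
  | _ m ih =>
    rcases Nat.eq_zero_or_pos m with h0 | h0
    · subst h0
      simp [MvPolynomial.esymm_zero]
    · have hx := congrArg (MvPolynomial.aeval x) (MvPolynomial.mul_esymm_eq_sum (Fin s) ℤ m)
      have hy := congrArg (MvPolynomial.aeval y) (MvPolynomial.mul_esymm_eq_sum (Fin s) ℤ m)
      simp only [map_mul, map_natCast, map_pow, map_neg, map_one, map_sum] at hx hy
      have hps : ∀ (z : Fin s → ℤ) (j : ℕ),
          MvPolynomial.aeval z (MvPolynomial.psum (Fin s) ℤ j) = ∑ i, z i ^ j := by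
        intro z j
        simp [MvPolynomial.psum]
      have hsum : ∑ a ∈ antidiagonal m with a.1 < m, (-1 : ℤ) ^ a.1 *
            MvPolynomial.aeval x (MvPolynomial.esymm (Fin s) ℤ a.1) *
              MvPolynomial.aeval x (MvPolynomial.psum (Fin s) ℤ a.2) =
          ∑ a ∈ antidiagonal m with a.1 < m, (-1 : ℤ) ^ a.1 *
            MvPolynomial.aeval y (MvPolynomial.esymm (Fin s) ℤ a.1) *
              MvPolynomial.aeval y (MvPolynomial.psum (Fin s) ℤ a.2) := by
        refine sum_congr rfl fun a ha => ?_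
        rw [mem_filter, HasAntidiagonal.mem_antidiagonal] at ha
        rw [ih a.1 ha.2 (by omega), hps, hps, h a.2 (by omega) (by omega)]
      rw [hsum] at hx
      have h2 : (m : ℤ) * MvPolynomial.aeval x (MvPolynomial.esymm (Fin s) ℤ m) =
          (m : ℤ) * MvPolynomial.aeval y (MvPolynomial.esymm (Fin s) ℤ m) := by
        rw [hx, hy]
      exact mul_left_cancel₀ (by exact_mod_cast h0.ne') h2

lemma coeff_prod (s : ℕ) (x : Fin s → ℤ) (m : ℕ) (hm : m ≤ s) :
    (∏ i, ((X : ℤ[X]) - C (x i))).coeff m =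
      (-1) ^ (s - m) * MvPolynomial.aeval x (MvPolynomial.esymm (Fin s) ℤ (s - m)) := by
  have hc : Multiset.card (univ.val.map x) = s := by simp
  have h := Multiset.prod_X_sub_C_coeff (univ.val.map x) (k := m) (by rw [hc]; exact hm)
  rw [hc] at h
  rw [MvPolynomial.aeval_esymm_eq_multiset_esymm, ← h, Multiset.map_map]
  rfl

lemma coeff_prod_gt (s : ℕ) (x : Fin s → ℤ) (m : ℕ) (hm : s < m) :
    (∏ i, ((X : ℤ[X]) - C (x i))).coeff m = 0 := by
  apply coeff_eq_zero_of_natDegree_lt
  have h := natDegree_finsetProd_X_sub_C_eq_card (univ : Finset (Fin s)) x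
  rw [h, card_univ, Fintype.card_fin]
  exact hm

theorem main : NEWTStm := by
  intro s k x y h
  rw [degree_lt_iff_coeff_zero]
  intro m hm
  rw [coeff_sub]
  rcases le_or_gt m s with h1 | h1
  · rw [coeff_prod s (fun i => (x i : ℤ)) m h1, coeff_prod s (fun i => (y i : ℤ)) m h1,
      esymm_eq s k (fun i => (x i : ℤ)) (fun i => (y i : ℤ)) ?_ (s - m) (by omega), sub_self]
    intro j hj1 hj2
    have := h ⟨j - 1, by omega⟩
    simp only at this
    rw [show j - 1 + 1 = j by omega] at this
    exact_mod_cast this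
  · rw [coeff_prod_gt s (fun i => (x i : ℤ)) m h1, coeff_prod_gt s (fun i => (y i : ℤ)) m h1, sub_self]

end Pool.Agent.W346.PV.Newt
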